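import Pool.Agent.W648.UN.Stm

set_option autoImplicit false

open MeasureTheory Set Filter Topology
open scoped ContDiff

noncomputable section

namespace Pool.Agent.W246.UN.TR

open Pool.Agent.W648.UN

theorem nb_mono {A : Type} [NormedCommRing A] {H : ℝ → A} {a b : ℝ} (h : NB H a) (hab : a ≤ b) :
    NB H b := ⟨h.1, h.2.1, h.2.2.trans hab⟩

theorem hh_neg (h : ℝ → ℝ) (t : ℝ) : HH (fun t => - h t) t = fun x => - HH h t x := by
  funext x; simp [HH]

theorem arc (b : ℝ) (hb : 0 ≤ b) :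
    ∫ x in (0 : ℝ)..1, (Real.sqrt (1 - x ^ 2 + b))⁻¹ = Real.pi / 2 - Real.arctan (Real.sqrt b) := by
  set c := Real.sqrt (1 + b) with hc
  have hc0 : 0 < c := Real.sqrt_pos.mpr (by linarith)
  have hcsq : c ^ 2 = 1 + b := Real.sq_sqrt (by linarith)
  have hc1 : 1 ≤ c := by nlinarith
  have hcont : ContinuousOn (fun x : ℝ => Real.arcsin (x / c)) (Icc 0 1) :=
    (Real.continuous_arcsin.comp (continuous_id.div_const c)).continuousOn
  have hder : ∀ x ∈ Ioo (0 : ℝ) 1,
      HasDerivAt (fun x : ℝ => Real.arcsin (x / c)) ((Real.sqrt (1 - x ^ 2 + b))⁻¹) x := by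
    intro x hx
    have hxc : x / c < 1 := by rw [div_lt_one hc0]; linarith [hx.2]
    have hxc0 : 0 < x / c := div_pos hx.1 hc0
    have h1 := Real.hasDerivAt_arcsin (x := x / c) (by linarith) (by linarith)
    have h2 : HasDerivAt (fun x : ℝ => x / c) (1 / c) x := (hasDerivAt_id x).div_const c
    have h3 := h1.comp x h2
    refine h3.congr_deriv ?_
    have e1 : 1 - x ^ 2 + b = c ^ 2 * (1 - (x / c) ^ 2) := by
      rw [mul_sub, ← mul_pow, mul_div_cancel₀ x hc0.ne', hcsq]; ring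
    rw [e1, Real.sqrt_mul (by positivity), Real.sqrt_sq hc0.le, mul_inv]
    rw [one_div, one_div]; ring
  have hint : IntervalIntegrable (fun x : ℝ => (Real.sqrt (1 - x ^ 2 + b))⁻¹) volume 0 1 := by
    apply intervalIntegral.intervalIntegrable_deriv_of_nonneg (g := fun x : ℝ => Real.arcsin (x / c))
    · rw [uIcc_of_le zero_le_one]; exact hcont
    · simpa using hder
    · intro x _; positivity
  rw [intervalIntegral.integral_eq_sub_of_hasDerivAt_of_le zero_le_one hcont hder hint]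
  have e2 : (1 : ℝ) / c = Real.cos (Real.arctan (Real.sqrt b)) := by
    rw [Real.cos_arctan, Real.sq_sqrt hb]
  simp only [zero_div, Real.arcsin_zero, sub_zero]
  rw [e2, ← Real.sin_pi_div_two_sub, Real.arcsin_sin]
  · have := Real.arctan_lt_pi_div_two (Real.sqrt b)
    have := Real.pi_pos
    linarith
  · have : 0 ≤ Real.arctan (Real.sqrt b) := Real.arctan_nonneg.mpr (Real.sqrt_nonneg b)
    linarith

theorem om_real {b : ℝ} (hb : 0 ≤ b) : ((b : ℝ) : ℂ) ∈ Om := by
  simp [Om, hb]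

theorem tau0 (hD : S_D) (hUps : S_UPS) (h : ℝ → ℝ) (h0 : ∀ t ≤ 0, h t = 0)
    (hN : NB (HH h 0) (1 / 20)) (b : ℝ) (hb : 0 ≤ b) :
    Tau (HH h 0) ((b : ℝ) : ℂ) = ((Real.pi / 2 - Real.arctan (Real.sqrt b) : ℝ) : ℂ) := by
  have hz : ∀ x ∈ Ioo (0 : ℝ) 1, HH h 0 x = 0 := by
    intro x hx
    have : Real.log x ≤ 0 := Real.log_nonpos hx.1.le hx.2.le
    simp [HH, h0 _ this]
  have hzero : ∀ (x : ℝ), x ∈ Ico (0 : ℝ) 1 → ∀ g : ℝ → ℂ,
      (∀ s, s ∈ Ioo (0 : ℝ) 1 → g s = 0) → ∫ s in x..1, g s = 0 := by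
    intro x hx g hg
    rw [intervalIntegral.integral_of_le hx.2.le, MeasureTheory.integral_Ioc_eq_integral_Ioo]
    apply MeasureTheory.setIntegral_eq_zero_of_forall_eq_zero
    intro s hs
    exact hg s ⟨lt_of_le_of_lt hx.1 hs.1, hs.2⟩
  have hsol : Sol (HH h 0) ((b : ℝ) : ℂ) (fun _ => 1) (fun _ => 1) (fun _ => 1) := by
    refine ⟨continuousOn_const, continuousOn_const, continuousOn_const, ?_, ?_, ?_, ?_, ?_⟩
    · intro x _; norm_num
    · intro x _; norm_num
    · intro x _; norm_num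
    · intro x hx
      rw [hzero x hx _ (fun s hs => by rw [hz s hs]; simp)]
      simp
    · intro x hx
      rw [hzero x hx _ (fun s hs => by rw [hz s hs]; simp)]
      simp
  rw [(hUps ℂ (HH h 0) _ _ _ _ hN (om_real hb) hsol).2, tauOf, ← arc b hb,
    ← intervalIntegral.integral_ofReal]
  apply intervalIntegral.integral_congr
  intro x hx
  rw [uIcc_of_le zero_le_one] at hx
  simp only [smul_eq_mul, mul_one]
  rw [hD.2.2.2.2 b hb x hx, Complex.ofReal_inv]

theorem th (h1 : S_TR1) (hC : S_CTS) (hD : S_D) (_hE : S_EX) (_hU : S_UN) (hUps : S_UPS)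
    (_hc : S_CONGR) : S_TR := by
  intro h hok t ht
  set k : ℝ → ℝ := fun t => - h t with hk
  have hok' : okh k := ⟨hok.1.neg, fun t ht => by simp [hk, hok.2.1 t ht],
    fun t => by simpa [hk] using hok.2.2 t⟩
  set b : ℝ → ℝ := fun s => Real.exp (2 * (t - s)) - 1 with hb
  have hbc : Continuous b := by simp only [hb]; fun_prop
  have hb0 : ∀ s ≤ t, 0 ≤ b s := by
    intro s hs
    have : 1 ≤ Real.exp (2 * (t - s)) := Real.one_le_exp (by linarith)
    simp only [hb]; linarith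
  have hbt : b t = 0 := by simp [hb]
  set F : (ℝ → ℝ) → ℝ → ℂ := fun g s => Tau (HH g s) ((b s : ℝ) : ℂ) +
        ((Real.arctan (Real.sqrt (b s)) : ℝ) : ℂ) with hF
  have hmap : ContinuousOn (fun s : ℝ => (s, b s)) (Icc 0 t) :=
    (continuous_id.prodMk hbc).continuousOn
  have hmaps : MapsTo (fun s : ℝ => (s, b s)) (Icc 0 t) (univ ×ˢ Ici (0 : ℝ)) := by
    intro s hs
    exact ⟨mem_univ _, hb0 s hs.2⟩
  have hFc : ∀ g, okh g → ContinuousOn (F g) (Icc 0 t) := by
    intro g hg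
    have c1 := ((hC g hg).2.2.2.2.1).comp hmap hmaps
    have c2 : Continuous (fun s => ((Real.arctan (Real.sqrt (b s)) : ℝ) : ℂ)) :=
      Complex.continuous_ofReal.comp (Real.continuous_arctan.comp (Real.continuous_sqrt.comp hbc))
    exact c1.add c2.continuousOn
  have hFd : ∀ g, okh g → ∀ s < t, HasDerivWithinAt (F g)
      ((g s : ℂ) * (-1 + ((Real.sqrt (b s) : ℝ) : ℂ) * Ups (HH g s) ((b s : ℝ) : ℂ))) (Ici s) s := by
    intro g hg s hs
    exact h1 g hg.1 hg.2.1 hg.2.2 s t hs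
  set G : ℝ → ℂ := fun s => ((h s * Real.sqrt (b s) : ℝ) : ℂ) *
        lam (HH h s) ((b s : ℝ) : ℂ) with hG
  have hGc : ContinuousOn G (Icc 0 t) := by
    have c1 := ((hC h hok).2.2.1).comp hmap hmaps
    have c2 : Continuous (fun s => ((h s * Real.sqrt (b s) : ℝ) : ℂ)) :=
      Complex.continuous_ofReal.comp (hok.1.mul (Real.continuous_sqrt.comp hbc))
    exact c2.continuousOn.mul c1
  have hGi : IntervalIntegrable G volume 0 t := by
    apply ContinuousOn.intervalIntegrable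
    rwa [uIcc_of_le ht]
  have hder : ∀ s ∈ Ioo (min 0 t) (max 0 t), HasDerivWithinAt (fun s => F h s + F k s) (G s)
      (Ioi s) s := by
    intro s hs
    rw [min_eq_left ht, max_eq_right ht] at hs
    have d1 := (hFd h hok s hs.2).add (hFd k hok' s hs.2)
    have d2 := d1.mono Ioi_subset_Ici_self
    refine d2.congr_deriv ?_
    simp only [hG, lam]
    rw [← hh_neg h s]
    simp only [hk]
    push_cast
    ring
  have hcont : ContinuousOn (fun s => F h s + F k s) (uIcc 0 t) := by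
    rw [uIcc_of_le ht]
    exact (hFc h hok).add (hFc k hok')
  have key := intervalIntegral.integral_eq_sub_of_hasDeriv_right hcont hder hGi
  have e0 : ∀ g, okh g → F g 0 = ((Real.pi / 2 : ℝ) : ℂ) := by
    intro g hg
    simp only [hF]
    rw [tau0 hD hUps g hg.2.1 (nb_mono ((hC g hg).1 0) (by norm_num)) (b 0) (hb0 0 ht)]
    rw [← Complex.ofReal_add]
    congr 1
    ring
  have et : F h t + F k t = TT (HH h t) := by
    simp only [hF, hbt, TT]
    rw [← hh_neg h t]
    simp [hk]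
  have key2 : ∫ s in (0 : ℝ)..t, G s = TT (HH h t) - (Real.pi : ℂ) := by
    rw [key, et, e0 h hok, e0 k hok']
    push_cast
    ring
  rw [key2]
  ring

end Pool.Agent.W246.UN.TR
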